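import Mathlib
import Pool.Agent.L7h8.BE.Stm

set_option autoImplicit false

/-! Counting lemmas for project BE of helper8. -/

open Finset

namespace Pool.Agent.L7h32.BE

open Pool.Agent.L7h8.BE
open Pool.Agent.N718.LB (V3 cr dt)

theorem mem_V3 {N : ℕ} {w : Fin 3 → ℤ} : w ∈ V3 N ↔ ∀ i, |w i| ≤ N := by
  unfold V3
  rw [Fintype.mem_piFinset]
  simp only [Finset.mem_Icc, abs_le]

theorem card_V3 (N : ℕ) : (V3 N).card = (2 * N + 1) ^ 3 := by
  unfold V3
  rw [Fintype.card_piFinset, Finset.prod_const, Finset.card_univ, Fintype.card_fin, Int.card_Icc]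
  congr 1
  omega

/-- integers with a small value of a linear function -/
theorem line (h c : ℤ) (T : ℕ) (hh : h ≠ 0) (S : Finset ℤ) (hS : ∀ x ∈ S, |x * h + c| ≤ T) :
    S.card ≤ 2 * T / h.natAbs + 1 := by
  rcases S.eq_empty_or_nonempty with h0 | h0
  · rw [h0, Finset.card_empty]
    exact Nat.zero_le _
  obtain ⟨x0, hx0, hmin⟩ := S.exists_min_image id h0
  obtain ⟨x1, hx1, hmax⟩ := S.exists_max_image id h0
  simp only [id] at hmin hmax
  have hsub : S ⊆ Icc x0 x1 := fun x hx => Finset.mem_Icc.2 ⟨hmin x hx, hmax x hx⟩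
  have h1 := Finset.card_le_card hsub
  rw [Int.card_Icc] at h1
  have h2 : x0 ≤ x1 := hmin x1 hx1
  have h3 : (x1 - x0) * |h| ≤ 2 * T := by
    have h4 := hS x0 hx0
    have h5 := hS x1 hx1
    have h6 : |(x1 - x0) * h| ≤ 2 * T := by
      have h7 : (x1 - x0) * h = (x1 * h + c) - (x0 * h + c) := by ring
      rw [h7]
      refine (abs_sub _ _).trans ?_
      linarith
    rwa [abs_mul, abs_of_nonneg (by linarith)] at h6
  have h4 : (x1 - x0).toNat ≤ 2 * T / h.natAbs := by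
    rw [Nat.le_div_iff_mul_le (Int.natAbs_pos.2 hh)]
    zify
    rw [Int.toNat_of_nonneg (by linarith)]
    exact h3
  omega

theorem dt_update (w h : Fin 3 → ℤ) (i : Fin 3) :
    dt w h = w i * h i + dt (Function.update w i 0) h := by
  unfold dt
  fin_cases i <;> simp <;> ring

theorem slab (N T : ℕ) (h : Fin 3 → ℤ) (i : Fin 3) (hi : h i ≠ 0) :
    (((V3 N).filter (fun w => |dt w h| ≤ T)).card : ℝ) ≤
      (2 * (N : ℝ) + 1) ^ 2 * (2 * T / |(h i : ℝ)| + 1) := by
  classical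
  have h1 := Finset.card_le_mul_card_image (f := fun w : Fin 3 → ℤ => Function.update w i 0)
    ((V3 N).filter (fun w => |dt w h| ≤ T)) (2 * T / (h i).natAbs + 1) (by
    intro g hg
    have hinj : Set.InjOn (fun w : Fin 3 → ℤ => w i)
        (((V3 N).filter (fun w => |dt w h| ≤ T)).filter (fun w => Function.update w i 0 = g)) := by
      intro w hw w' hw' he
      rw [Finset.mem_coe, Finset.mem_filter] at hw hw'
      have h2 : Function.update w i 0 = Function.update w' i 0 := hw.2.trans hw'.2.symm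
      funext j
      by_cases hj : j = i
      · rw [hj]
        exact he
      · have h3 := congrFun h2 j
        rwa [Function.update_of_ne hj, Function.update_of_ne hj] at h3
    rw [← Finset.card_image_of_injOn hinj]
    apply line (h i) (dt g h) T hi
    intro x hx
    obtain ⟨w, hw, rfl⟩ := Finset.mem_image.1 hx
    rw [Finset.mem_filter, Finset.mem_filter] at hw
    rw [← hw.2, ← dt_update]
    exact hw.1.2)
  have h2 : (((V3 N).filter (fun w => |dt w h| ≤ T)).image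
      (fun w : Fin 3 → ℤ => Function.update w i 0)).card ≤ (2 * N + 1) ^ 2 := by
    have h3 : (((V3 N).filter (fun w => |dt w h| ≤ T)).image
      (fun w : Fin 3 → ℤ => Function.update w i 0)) ⊆
      Fintype.piFinset (fun j : Fin 3 => if j = i then {0} else Icc (-(N : ℤ)) N) := by
      intro g hg
      obtain ⟨w, hw, rfl⟩ := Finset.mem_image.1 hg
      rw [Finset.mem_filter, mem_V3] at hw
      rw [Fintype.mem_piFinset]
      intro j
      by_cases hj : j = i
      · rw [hj]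
        simp
      · rw [if_neg hj, Function.update_of_ne hj, Finset.mem_Icc]
        exact abs_le.1 (hw.1 j)
    refine (Finset.card_le_card h3).trans ?_
    rw [Fintype.card_piFinset, Fin.prod_univ_three]
    have h4 : (Icc (-(N : ℤ)) N).card = 2 * N + 1 := by
      rw [Int.card_Icc]
      omega
    fin_cases i <;> simp [h4] <;> nlinarith
  have h3 : ((V3 N).filter (fun w => |dt w h| ≤ T)).card ≤
      (2 * T / (h i).natAbs + 1) * (2 * N + 1) ^ 2 := h1.trans (Nat.mul_le_mul_left _ h2)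
  have h4 : (((V3 N).filter (fun w => |dt w h| ≤ T)).card : ℝ) ≤
      (((2 * T / (h i).natAbs : ℕ) : ℝ) + 1) * (2 * N + 1) ^ 2 := by exact_mod_cast h3
  have h5 : ((2 * T / (h i).natAbs : ℕ) : ℝ) ≤ 2 * T / |(h i : ℝ)| := by
    refine Nat.cast_div_le.trans (le_of_eq ?_)
    rw [Nat.cast_natAbs]
    push_cast
    rfl
  refine h4.trans ?_
  rw [mul_comm]
  apply mul_le_mul_of_nonneg_left _ (by positivity)
  linarith

theorem badc : S_BADC := by
  classical
  intro R B
  refine ⟨(2 * (R : ℝ) + 1) ^ 3 * ((2 * (B : ℝ) + 1) ^ 2 * (2 * R + 1)) ^ 2, by positivity, ?_⟩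
  intro H hH
  have hH1 : (1 : ℝ) ≤ H := by exact_mod_cast hH
  have hsub : ((V3 (B * H) ×ˢ V3 (B * H)).filter (fun t => ∃ h : Fin 3 → ℤ, h ≠ 0 ∧ (∀ i, |h i| ≤ R) ∧
    |dt t.2 h| ≤ R ∧ |dt t.1 h| ≤ R)) ⊆ ((V3 R).filter (fun h => h ≠ 0)).biUnion (fun h =>
      ((V3 (B * H)).filter (fun w => |dt w h| ≤ R)) ×ˢ ((V3 (B * H)).filter (fun w => |dt w h| ≤ R))) := by
    intro t ht
    rw [Finset.mem_filter, Finset.mem_product] at ht
    obtain ⟨⟨h1, h2⟩, h, h3, h4, h5, h6⟩ := ht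
    rw [Finset.mem_biUnion]
    refine ⟨h, ?_, ?_⟩
    · rw [Finset.mem_filter, mem_V3]
      exact ⟨h4, h3⟩
    · rw [Finset.mem_product, Finset.mem_filter, Finset.mem_filter]
      exact ⟨⟨h1, h6⟩, ⟨h2, h5⟩⟩
  have hone : ∀ h ∈ (V3 R).filter (fun h => h ≠ 0), ((((V3 (B * H)).filter (fun w => |dt w h| ≤ R)) ×ˢ
      ((V3 (B * H)).filter (fun w => |dt w h| ≤ R))).card : ℝ) ≤
      ((2 * (B : ℝ) + 1) ^ 2 * (2 * R + 1)) ^ 2 * (H : ℝ) ^ 4 := by
    intro h hh
    rw [Finset.mem_filter] at hh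
    obtain ⟨i, hi⟩ : ∃ i, h i ≠ 0 := by
      by_contra hcon
      push Not at hcon
      exact hh.2 (funext hcon)
    have h1 := slab (B * H) R h i hi
    have h2 : (1 : ℝ) ≤ |(h i : ℝ)| := by
      have : (1 : ℤ) ≤ |h i| := Int.one_le_abs hi
      exact_mod_cast this
    have h3 : 2 * (R : ℝ) / |(h i : ℝ)| ≤ 2 * R := div_le_self (by positivity) h2
    have h4 : (((V3 (B * H)).filter (fun w => |dt w h| ≤ R)).card : ℝ) ≤
        ((2 * (B : ℝ) + 1) ^ 2 * (2 * R + 1)) * (H : ℝ) ^ 2 := by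
      calc _ ≤ (2 * ((B * H : ℕ) : ℝ) + 1) ^ 2 * (2 * R / |(h i : ℝ)| + 1) := h1
        _ ≤ ((2 * (B : ℝ) + 1) * H) ^ 2 * (2 * R + 1) := by
            apply mul_le_mul _ (by linarith) (by positivity) (by positivity)
            apply pow_le_pow_left₀ (by positivity)
            push_cast
            nlinarith
        _ = _ := by ring
    rw [Finset.card_product]
    push_cast
    calc _ ≤ (((2 * (B : ℝ) + 1) ^ 2 * (2 * R + 1)) * (H : ℝ) ^ 2) *
          (((2 * (B : ℝ) + 1) ^ 2 * (2 * R + 1)) * (H : ℝ) ^ 2) :=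
          mul_le_mul h4 h4 (Nat.cast_nonneg _) (by positivity)
      _ = _ := by ring
  have h1 := (Finset.card_le_card hsub).trans Finset.card_biUnion_le
  have h2 : (((V3 R).filter (fun h => h ≠ 0)).card : ℝ) ≤ (2 * (R : ℝ) + 1) ^ 3 := by
    have h3 := Finset.card_filter_le (V3 R) (fun h => h ≠ 0)
    rw [card_V3] at h3
    exact_mod_cast h3
  calc _ ≤ ((∑ h ∈ (V3 R).filter (fun h => h ≠ 0), (((V3 (B * H)).filter (fun w => |dt w h| ≤ R)) ×ˢ
      ((V3 (B * H)).filter (fun w => |dt w h| ≤ R))).card : ℕ) : ℝ) := by exact_mod_cast h1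
    _ = ∑ h ∈ (V3 R).filter (fun h => h ≠ 0), ((((V3 (B * H)).filter (fun w => |dt w h| ≤ R)) ×ˢ
      ((V3 (B * H)).filter (fun w => |dt w h| ≤ R))).card : ℝ) := by push_cast; rfl
    _ ≤ ∑ _h ∈ (V3 R).filter (fun h => h ≠ 0),
        ((2 * (B : ℝ) + 1) ^ 2 * (2 * R + 1)) ^ 2 * (H : ℝ) ^ 4 := Finset.sum_le_sum hone
    _ = (((V3 R).filter (fun h => h ≠ 0)).card : ℝ) *
        (((2 * (B : ℝ) + 1) ^ 2 * (2 * R + 1)) ^ 2 * (H : ℝ) ^ 4) := by
        rw [Finset.sum_const, nsmul_eq_mul]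
    _ ≤ (2 * (R : ℝ) + 1) ^ 3 * (((2 * (B : ℝ) + 1) ^ 2 * (2 * R + 1)) ^ 2 * (H : ℝ) ^ 4) :=
        mul_le_mul_of_nonneg_right h2 (by positivity)
    _ = _ := by ring

/-- the maximum norm -/
def mx (P : Fin 3 → ℤ) : ℕ := max (P 0).natAbs (max (P 1).natAbs (P 2).natAbs)

theorem le_mx (P : Fin 3 → ℤ) (i : Fin 3) : (P i).natAbs ≤ mx P := by
  unfold mx
  fin_cases i
  · exact le_max_left _ _
  · exact (le_max_left _ _).trans (le_max_right _ _)
  · exact (le_max_right _ _).trans (le_max_right _ _)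

theorem mx_eq (P : Fin 3 → ℤ) : ∃ i, (P i).natAbs = mx P := by
  unfold mx
  rcases max_choice (P 0).natAbs (max (P 1).natAbs (P 2).natAbs) with h | h
  · exact ⟨0, h.symm⟩
  · rcases max_choice (P 1).natAbs (P 2).natAbs with h' | h'
    · exact ⟨1, by rw [h, h']⟩
    · exact ⟨2, by rw [h, h']⟩

theorem shell (m : ℕ) (hm : 1 ≤ m) (X : ℕ) :
    (((V3 X).filter (fun P => mx P = m)).card : ℝ) ≤ 26 * (m : ℝ) ^ 2 := by
  classical
  obtain ⟨k, rfl⟩ : ∃ k, m = k + 1 := ⟨m - 1, by omega⟩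
  have hsub : (V3 X).filter (fun P => mx P = k + 1) ⊆ V3 (k + 1) \ V3 k := by
    intro P hP
    rw [Finset.mem_filter] at hP
    rw [Finset.mem_sdiff, mem_V3, mem_V3]
    refine ⟨fun i => ?_, fun hall => ?_⟩
    · have := le_mx P i
      rw [hP.2] at this
      rw [Int.abs_eq_natAbs]
      exact_mod_cast this
    · obtain ⟨i, hi⟩ := mx_eq P
      have h1 := hall i
      rw [Int.abs_eq_natAbs, hi, hP.2] at h1
      have h2 : k + 1 ≤ k := by exact_mod_cast h1
      omega
  have hV : V3 k ⊆ V3 (k + 1) := by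
    intro P hP
    rw [mem_V3] at hP ⊢
    intro i
    have := hP i
    push_cast
    linarith
  have h1 := Finset.card_le_card hsub
  rw [Finset.card_sdiff_of_subset hV, card_V3, card_V3] at h1
  have h2 : ((V3 X).filter (fun P => mx P = k + 1)).card + (2 * k + 1) ^ 3 ≤ (2 * (k + 1) + 1) ^ 3 := by
    have h3 : (2 * k + 1) ^ 3 ≤ (2 * (k + 1) + 1) ^ 3 := Nat.pow_le_pow_left (by omega) 3
    omega
  have h3 : (((V3 X).filter (fun P => mx P = k + 1)).card : ℝ) + (2 * (k : ℝ) + 1) ^ 3 ≤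
      (2 * ((k : ℝ) + 1) + 1) ^ 3 := by exact_mod_cast h2
  push_cast
  have hk : (0 : ℝ) ≤ k := Nat.cast_nonneg _
  nlinarith

theorem low : S_LOW := by
  classical
  refine ⟨702, by norm_num, ?_⟩
  intro A D X hX hXA hAD
  have hX1 : (1 : ℝ) ≤ X := by exact_mod_cast hX
  have hXAr : (X : ℝ) ≤ A := by exact_mod_cast hXA
  have hADr : (A : ℝ) ≤ D := by exact_mod_cast hAD
  obtain ⟨S, hS⟩ : ∃ S, S = (V3 X).filter (fun P => 1 ≤ mx P) := ⟨_, rfl⟩
  have hsub : ((V3 A ×ˢ Icc (-(D : ℤ)) D).filter (fun t => ∃ P : Fin 3 → ℤ, P ≠ 0 ∧ (∀ i, |P i| ≤ X) ∧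
      dt t.1 P = t.2)) ⊆ S.biUnion (fun P =>
        ((V3 A).filter (fun a => |dt a P| ≤ D)).image (fun a => (a, dt a P))) := by
    intro t ht
    rw [Finset.mem_filter, Finset.mem_product, Finset.mem_Icc] at ht
    obtain ⟨⟨h1, h2⟩, P, h3, h4, h5⟩ := ht
    rw [Finset.mem_biUnion]
    refine ⟨P, ?_, ?_⟩
    · rw [hS, Finset.mem_filter, mem_V3]
      refine ⟨h4, ?_⟩
      by_contra hcon
      apply h3
      funext i
      have h6 := le_mx P i
      have h7 : (P i).natAbs = 0 := by omega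
      exact Int.natAbs_eq_zero.1 h7
    · rw [Finset.mem_image]
      refine ⟨t.1, ?_, ?_⟩
      · rw [Finset.mem_filter, h5, abs_le]
        exact ⟨h1, h2⟩
      · rw [h5]
  have hone : ∀ P ∈ S, ((((V3 A).filter (fun a => |dt a P| ≤ D)).image (fun a => (a, dt a P))).card : ℝ) ≤
      27 * (A : ℝ) ^ 2 * D / (mx P : ℝ) := by
    intro P hP
    rw [hS, Finset.mem_filter, mem_V3] at hP
    obtain ⟨i, hi⟩ := mx_eq P
    have hi0 : P i ≠ 0 := by
      intro h0
      rw [h0] at hi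
      simp only [Int.natAbs_zero] at hi
      omega
    have h1 := slab A D P i hi0
    have h2 : |(P i : ℝ)| = (mx P : ℝ) := by
      rw [← hi, Nat.cast_natAbs]
      push_cast
      rfl
    rw [h2] at h1
    have hm1 : (1 : ℝ) ≤ mx P := by exact_mod_cast hP.2
    have hmX : (mx P : ℝ) ≤ X := by
      have h3 := hP.1 i
      rw [Int.abs_eq_natAbs, hi] at h3
      exact_mod_cast h3
    have h4 : (1 : ℝ) ≤ D / mx P := by
      rw [le_div_iff₀ (by linarith)]
      linarith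
    have h5 : ((((V3 A).filter (fun a => |dt a P| ≤ D)).image (fun a => (a, dt a P))).card : ℝ) ≤
        (((V3 A).filter (fun a => |dt a P| ≤ D)).card : ℝ) := by exact_mod_cast Finset.card_image_le
    refine h5.trans (h1.trans ?_)
    calc (2 * (A : ℝ) + 1) ^ 2 * (2 * D / (mx P : ℝ) + 1) ≤ (3 * A) ^ 2 * (3 * (D / (mx P : ℝ))) := by
          apply mul_le_mul _ _ (by positivity) (by positivity)
          · apply pow_le_pow_left₀ (by positivity)
            linarith
          · have : 2 * (D : ℝ) / mx P = 2 * (D / mx P) := by ring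
            rw [this]
            linarith
      _ = _ := by ring
  have h1 := (Finset.card_le_card hsub).trans Finset.card_biUnion_le
  have h2 : ∑ P ∈ S, 27 * (A : ℝ) ^ 2 * D / (mx P : ℝ) ≤ 702 * (A : ℝ) ^ 2 * D * (X : ℝ) ^ 2 := by
    have hmaps : ∀ P ∈ S, mx P ∈ Icc 1 X := by
      intro P hP
      rw [hS, Finset.mem_filter, mem_V3] at hP
      rw [Finset.mem_Icc]
      refine ⟨hP.2, ?_⟩
      obtain ⟨i, hi⟩ := mx_eq P
      have h3 := hP.1 i
      rw [Int.abs_eq_natAbs, hi] at h3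
      exact_mod_cast h3
    rw [← Finset.sum_fiberwise_of_maps_to hmaps]
    have h3 : ∀ m ∈ Icc 1 X, ∑ P ∈ S.filter (fun P => mx P = m), 27 * (A : ℝ) ^ 2 * D / (mx P : ℝ) ≤
        702 * (A : ℝ) ^ 2 * D * X := by
      intro m hm
      rw [Finset.mem_Icc] at hm
      have hm1 : (1 : ℝ) ≤ m := by exact_mod_cast hm.1
      have hmX : (m : ℝ) ≤ X := by exact_mod_cast hm.2
      have h4 : ∑ P ∈ S.filter (fun P => mx P = m), 27 * (A : ℝ) ^ 2 * D / (mx P : ℝ) =
          ((S.filter (fun P => mx P = m)).card : ℝ) * (27 * (A : ℝ) ^ 2 * D / m) := by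
        rw [← nsmul_eq_mul, ← Finset.sum_const]
        refine Finset.sum_congr rfl fun P hP => ?_
        rw [(Finset.mem_filter.1 hP).2]
      rw [h4]
      have h5 : ((S.filter (fun P => mx P = m)).card : ℝ) ≤ 26 * (m : ℝ) ^ 2 := by
        refine le_trans ?_ (shell m hm.1 X)
        rw [Nat.cast_le]
        apply Finset.card_le_card
        intro P hP
        rw [hS, Finset.mem_filter, Finset.mem_filter] at hP
        rw [Finset.mem_filter]
        exact ⟨hP.1.1, hP.2⟩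
      calc _ ≤ 26 * (m : ℝ) ^ 2 * (27 * (A : ℝ) ^ 2 * D / m) :=
            mul_le_mul_of_nonneg_right h5 (by positivity)
        _ = 702 * (A : ℝ) ^ 2 * D * m := by
            field_simp
            ring
        _ ≤ _ := mul_le_mul_of_nonneg_left hmX (by positivity)
    calc _ ≤ ∑ m ∈ Icc 1 X, 702 * (A : ℝ) ^ 2 * D * X := Finset.sum_le_sum h3
      _ = _ := by
          rw [Finset.sum_const, nsmul_eq_mul, Nat.card_Icc]
          push_cast
          ring
  calc _ ≤ ((∑ P ∈ S, (((V3 A).filter (fun a => |dt a P| ≤ D)).image (fun a => (a, dt a P))).card : ℕ) : ℝ) := by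
        exact_mod_cast h1
    _ = ∑ P ∈ S, ((((V3 A).filter (fun a => |dt a P| ≤ D)).image (fun a => (a, dt a P))).card : ℝ) := by
        push_cast
        rfl
    _ ≤ ∑ P ∈ S, 27 * (A : ℝ) ^ 2 * D / (mx P : ℝ) := Finset.sum_le_sum hone
    _ ≤ _ := h2

end Pool.Agent.L7h32.BE
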