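import Mathlib
import Pool.Agent.L7h32.BE.Cnt
import Pool.Agent.N40.LB.Dens

set_option autoImplicit false

/-! Part DEN of project BE of helper8. -/

open Finset

namespace Pool.Agent.L7h32.BE

open Pool.Agent.L7h8.BE
open Pool.Agent.N718.LB (V3 cr dt Adm)

theorem adq_of_adm {a : Fin 3 → ℤ} {d : ℤ} (ha : Adm a) (hd : Even d) : Adq a d := by
  obtain ⟨h1, h2, h3, h4, h5⟩ := ha
  have key : ∀ i j, i ≠ j → ∀ p : ℕ, p.Prime → (p : ℤ) ∣ a i → ¬ (p : ℤ) ∣ a j := by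
    intro i j hij p hp hi hj
    have h6 := (h4 i j hij).isUnit_of_dvd' hi hj
    exact (Nat.prime_iff_prime_int.1 hp).not_unit h6
  refine ⟨h1, h2, h3, h5.sub hd, ?_, ?_⟩
  · intro p hp hall
    exact key 0 1 (by decide) p hp (hall 0) (hall 1)
  · intro i j hij p hp hi hj
    exact absurd hj (key i j hij p hp hi)

theorem evens (D : ℕ) : (D : ℝ) ≤ (((Icc (-(D : ℤ)) D).filter (fun d => Even d)).card : ℝ) := by
  classical
  obtain ⟨k, hk⟩ : ∃ k : ℕ, k = D / 2 := ⟨_, rfl⟩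
  have h1 : ((Icc (-(k : ℤ)) k).image (fun x => 2 * x)) ⊆ (Icc (-(D : ℤ)) D).filter (fun d => Even d) := by
    intro y hy
    obtain ⟨x, hx, rfl⟩ := Finset.mem_image.1 hy
    rw [Finset.mem_Icc] at hx
    rw [Finset.mem_filter, Finset.mem_Icc]
    refine ⟨⟨by omega, by omega⟩, even_two_mul x⟩
  have h2 := Finset.card_le_card h1
  rw [Finset.card_image_of_injective _ (fun x y h => by
    have : (2 : ℤ) * x = 2 * y := h
    omega), Int.card_Icc] at h2
  have h3 : D ≤ ((Icc (-(D : ℤ)) D).filter (fun d => Even d)).card := by omega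
  exact_mod_cast h3

theorem den : S_DEN := by
  classical
  obtain ⟨c₀, hc₀, A₀, h⟩ := Pool.Agent.N40.LB.dens_
  refine ⟨c₀, hc₀, A₀, ?_⟩
  intro A hA D
  have h1 := h A hA
  have h2 := evens D
  have hsub : ((V3 A).filter (fun a => Adm a)) ×ˢ ((Icc (-(D : ℤ)) D).filter (fun d => Even d)) ⊆
      (V3 A ×ˢ Icc (-(D : ℤ)) D).filter (fun t => Adq t.1 t.2) := by
    intro t ht
    rw [Finset.mem_product, Finset.mem_filter, Finset.mem_filter] at ht
    rw [Finset.mem_filter, Finset.mem_product]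
    exact ⟨⟨ht.1.1, ht.2.1⟩, adq_of_adm ht.1.2 ht.2.2⟩
  have h3 := Finset.card_le_card hsub
  rw [Finset.card_product] at h3
  have h4 : (((V3 A).filter (fun a => Adm a)).card : ℝ) *
      (((Icc (-(D : ℤ)) D).filter (fun d => Even d)).card : ℝ) ≤
      (((V3 A ×ˢ Icc (-(D : ℤ)) D).filter (fun t => Adq t.1 t.2)).card : ℝ) := by exact_mod_cast h3
  refine le_trans ?_ h4
  calc c₀ * ((A : ℝ) ^ 3 * D) = (c₀ * (A : ℝ) ^ 3) * D := by ring
    _ ≤ _ := mul_le_mul h1 h2 (Nat.cast_nonneg _) (Nat.cast_nonneg _)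

end Pool.Agent.L7h32.BE
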